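import Mathlib
import Pool.Agent.H171R2.RupCore

/-!
# Niche number three: the clauses and their soundness
Variables: `10 i + j` (arc `i → j`), `100 + 10 i + j` for `i < j` (`i` before `j`),
`200 + 20 e + z` (common prey `z` of the ends of the edge `e`), `210 + 20 e + z` (common predator).
-/

set_option autoImplicit false

namespace Pool.Agent.H451R2.Niche

open Pool.Agent.H171R2.Rup

/-- the edges of the graph -/
def E : List (ℕ × ℕ) :=
  [(0, 1), (0, 2), (0, 6), (1, 3), (1, 7), (2, 4), (2, 7), (3, 5), (3, 6), (4, 6), (4, 7), (5, 6),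
    (5, 7)]

def ex (e : ℕ) : ℕ := (E.getD e (0, 0)).1
def ey (e : ℕ) : ℕ := (E.getD e (0, 0)).2

/-- the valuation attached to an arc relation and an order -/
def val (B s : ℕ → ℕ → Prop) (n : ℕ) : Prop :=
  if n < 100 then B (n / 10) (n % 10)
  else if n < 200 then s ((n - 100) / 10) (n % 10)
  else if (n - 200) % 20 < 10 then
    B (ex ((n - 200) / 20)) ((n - 200) % 20) ∧ B (ey ((n - 200) / 20)) ((n - 200) % 20)
  else B ((n - 200) % 20 - 10) (ex ((n - 200) / 20)) ∧ B ((n - 200) % 20 - 10) (ey ((n - 200) / 20))

def av (i j : ℕ) : ℕ := 10 * i + j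
def ov (i j : ℕ) : ℕ := 100 + 10 * i + j
def pv (e z : ℕ) : ℕ := 200 + 20 * e + z
def qv (e z : ℕ) : ℕ := 210 + 20 * e + z

variable {B s : ℕ → ℕ → Prop}

lemma val_av {i j : ℕ} (hi : i < 10) (hj : j < 10) : val B s (av i j) ↔ B i j := by
  have h1 : av i j < 100 := by unfold av; omega
  have h2 : av i j / 10 = i := by unfold av; omega
  have h3 : av i j % 10 = j := by unfold av; omega
  unfold val
  rw [if_pos h1, h2, h3]

lemma val_ov {i j : ℕ} (hi : i < 10) (hj : j < 10) : val B s (ov i j) ↔ s i j := by
  have h0 : ¬ ov i j < 100 := by unfold ov; omega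
  have h1 : ov i j < 200 := by unfold ov; omega
  have h2 : (ov i j - 100) / 10 = i := by unfold ov; omega
  have h3 : ov i j % 10 = j := by unfold ov; omega
  unfold val
  rw [if_neg h0, if_pos h1, h2, h3]

lemma val_pv {e z : ℕ} (hz : z < 10) : val B s (pv e z) ↔ B (ex e) z ∧ B (ey e) z := by
  have h0 : ¬ pv e z < 100 := by unfold pv; omega
  have h1 : ¬ pv e z < 200 := by unfold pv; omega
  have h2 : (pv e z - 200) / 20 = e := by unfold pv; omega
  have h3 : (pv e z - 200) % 20 = z := by unfold pv; omega
  unfold val
  rw [if_neg h0, if_neg h1, h2, h3, if_pos hz]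

lemma val_qv {e z : ℕ} (hz : z < 10) : val B s (qv e z) ↔ B z (ex e) ∧ B z (ey e) := by
  have h0 : ¬ qv e z < 100 := by unfold qv; omega
  have h1 : ¬ qv e z < 200 := by unfold qv; omega
  have h2 : (qv e z - 200) / 20 = e := by unfold qv; omega
  have h3 : (qv e z - 200) % 20 = z + 10 := by unfold qv; omega
  have h4 : ¬ z + 10 < 10 := by omega
  have h5 : z + 10 - 10 = z := by omega
  unfold val
  rw [if_neg h0, if_neg h1, h2, h3, if_neg h4, h5]

/-- the hypotheses: `B` is contained in the strict order `s` on `{0, ..., 9}` and its niche graph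
is the graph with edge set `E` on `{0, ..., 9}` -/
structure Hyp (B s : ℕ → ℕ → Prop) : Prop where
  sub : ∀ i < 10, ∀ j < 10, B i j → s i j
  asym : ∀ i < 10, ∀ j < 10, s i j → ¬ s j i
  total : ∀ i < 10, ∀ j < 10, i ≠ j → s i j ∨ s j i
  trans : ∀ i < 10, ∀ j < 10, ∀ k < 10, s i j → s j k → s i k
  edge : ∀ e < 13, ∃ z < 10, (B (ex e) z ∧ B (ey e) z) ∨ (B z (ex e) ∧ B z (ey e))
  non : ∀ x < 10, ∀ y < 10, x ≠ y → (x, y) ∉ E → (y, x) ∉ E → ∀ z < 10,
    ¬ (B x z ∧ B y z) ∧ ¬ (B z x ∧ B z y)

theorem E_lt (x y : ℕ) (h : (x, y) ∈ E) : x < y ∧ y < 8 := by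
  have h2 : ∀ p ∈ E, p.1 < p.2 ∧ p.2 < 8 := by decide
  exact h2 _ h

inductive Ax where
  | AO (i j : ℕ)
  | T1 (i j k : ℕ)
  | T2 (i j k : ℕ)
  | PX (e z t : ℕ)
  | BIG (e : ℕ)
  | NE (x y z t : ℕ)
  | U1
  | U2

def guard (b : Bool) (c : ℕ × ℕ) : ℕ × ℕ :=
  match b with
  | true => c
  | false => (1, 1)

theorem guard_valid {val : ℕ → Prop} {b : Bool} {c : ℕ × ℕ} (h : b = true → Valid val c) :
    Valid val (guard b c) := by
  cases b with
  | true => exact h rfl
  | false => exact valid_taut val

def lt (i j : ℕ) : Bool := Nat.blt i j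

theorem lt_iff {i j : ℕ} : lt i j = true ↔ i < j := by
  rw [lt, Nat.blt_eq]

def inE : List (ℕ × ℕ) → ℕ → ℕ → Bool
  | [], _, _ => false
  | p :: ps, i, j =>
    match Nat.beq p.1 i, Nat.beq p.2 j with
    | true, true => true
    | _, _ => inE ps i j

theorem inE_complete (i j : ℕ) : ∀ l : List (ℕ × ℕ), (i, j) ∈ l → inE l i j = true := by
  intro l
  induction l with
  | nil => intro h; simp at h
  | cons p ps ih =>
    intro h
    rw [inE]
    rcases List.mem_cons.mp h with h | h
    · rw [← h]
      simp
    · cases h1 : Nat.beq p.1 i with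
      | false => simpa [h1] using ih h
      | true =>
        cases h2 : Nat.beq p.2 j with
        | false => simpa [h1, h2] using ih h
        | true => rfl

def bigList (e : ℕ) : List ℕ → List ℕ
  | [] => []
  | z :: zs =>
    match Nat.beq z (ex e), Nat.beq z (ey e) with
    | false, false => pv e z :: qv e z :: bigList e zs
    | _, _ => bigList e zs

def axM : Ax → ℕ × ℕ
  | .AO i j =>
    match lt i 10, lt j 10 with
    | true, true =>
      match lt i j with
      | true => (mask [ov i j], mask [av i j])
      | false =>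
        match lt j i with
        | true => (0, mask [av i j, ov j i])
        | false => (1, 1)
    | _, _ => (1, 1)
  | .T1 i j k =>
    match lt i j, lt j k, lt k 10 with
    | true, true, true => (mask [ov i k], mask [ov i j, ov j k])
    | _, _, _ => (1, 1)
  | .T2 i j k =>
    match lt i j, lt j k, lt k 10 with
    | true, true, true => (mask [ov i j, ov j k], mask [ov i k])
    | _, _, _ => (1, 1)
  | .PX e z t =>
    match lt z 10, lt e 13 with
    | true, true =>
      match t with
      | 0 => (mask [av (ex e) z], mask [pv e z])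
      | 1 => (mask [av (ey e) z], mask [pv e z])
      | 2 => (mask [av z (ex e)], mask [qv e z])
      | _ => (mask [av z (ey e)], mask [qv e z])
    | _, _ => (1, 1)
  | .BIG e =>
    match lt e 13 with
    | true => (mask (bigList e [0, 1, 2, 3, 4, 5, 6, 7, 8, 9]), 0)
    | false => (1, 1)
  | .NE x y z t =>
    match lt x y, lt y 10, lt z 10, inE E x y with
    | true, true, true, false =>
      match t with
      | 0 => (0, mask [av x z, av y z])
      | _ => (0, mask [av z x, av z y])
    | _, _, _, _ => (1, 1)
  | .U1 => (mask [ov 6 7], 0)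
  | .U2 => (mask [ov 8 9], 0)

theorem mask_testBit (v : ℕ) : ∀ l : List ℕ, (mask l).testBit v = true ↔ v ∈ l := by
  intro l
  induction l with
  | nil => simp [mask]
  | cons a l ih =>
    rw [mask]
    change (Nat.shiftLeft 1 a ||| mask l).testBit v = true ↔ _
    rw [Nat.testBit_lor, Bool.or_eq_true, ih, testBit_shl1]
    simp only [decide_eq_true_eq, List.mem_cons]
    constructor
    · rintro (h | h)
      · exact Or.inl h.symm
      · exact Or.inr h
    · rintro (h | h)
      · exact Or.inl h.symm
      · exact Or.inr h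

theorem valid_of (val : ℕ → Prop) (ps ns : List ℕ)
    (h : (∃ v ∈ ps, val v) ∨ (∃ v ∈ ns, ¬ val v)) : Valid val (mask ps, mask ns) := by
  rcases h with ⟨v, hv, h⟩ | ⟨v, hv, h⟩
  · exact ⟨v, Or.inl ⟨(mask_testBit v ps).mpr hv, h⟩⟩
  · exact ⟨v, Or.inr ⟨(mask_testBit v ns).mpr hv, h⟩⟩

theorem valid_of_p (val : ℕ → Prop) (ps : List ℕ)
    (h : ∃ v ∈ ps, val v) : Valid val (mask ps, 0) := valid_of val ps [] (Or.inl h)

theorem valid_of_n (val : ℕ → Prop) (ns : List ℕ)
    (h : ∃ v ∈ ns, ¬ val v) : Valid val (0, mask ns) := valid_of val [] ns (Or.inr h)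

theorem mem_bigList (e z : ℕ) (h1 : z ≠ ex e) (h2 : z ≠ ey e) :
    ∀ l : List ℕ, z ∈ l → pv e z ∈ bigList e l ∧ qv e z ∈ bigList e l := by
  intro l
  induction l with
  | nil => intro h; simp at h
  | cons a l ih =>
    intro h
    rw [bigList]
    rcases List.mem_cons.mp h with h | h
    · subst h
      have e1 : Nat.beq z (ex e) = false := by
        rw [Bool.eq_false_iff, ne_eq, Nat.beq_eq]
        exact h1
      have e2 : Nat.beq z (ey e) = false := by
        rw [Bool.eq_false_iff, ne_eq, Nat.beq_eq]
        exact h2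
      rw [e1, e2]
      simp
    · have h3 := ih h
      split
      · exact ⟨List.mem_cons_of_mem _ (List.mem_cons_of_mem _ h3.1),
          List.mem_cons_of_mem _ (List.mem_cons_of_mem _ h3.2)⟩
      · exact h3

theorem exy_lt (e : ℕ) : ex e < 10 ∧ ey e < 10 := by
  by_cases h : e < 13
  · interval_cases e <;> decide
  · have : E.getD e (0, 0) = (0, 0) := by
      rw [List.getD_eq_default]
      simpa [E] using h
    unfold ex ey
    rw [this]
    decide

theorem axM_valid (H : Hyp B s) (h1 : s 6 7) (h2 : s 8 9) (a : Ax) : Valid (val B s) (axM a) := by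
  cases a with
  | AO i j =>
    simp only [axM]
    split
    next hi hj =>
      rw [lt_iff] at hi hj
      split
      next hij =>
        rw [lt_iff] at hij
        refine valid_of _ _ _ ?_
        by_cases hB : B i j
        · exact Or.inl ⟨_, List.mem_singleton_self _, (val_ov hi hj).mpr (H.sub i hi j hj hB)⟩
        · exact Or.inr ⟨_, List.mem_singleton_self _, fun h => hB ((val_av hi hj).mp h)⟩
      next hij =>
        split
        next hji =>
          refine valid_of_n _ _ ?_
          by_cases hB : B i j
          · refine ⟨ov j i, by simp, fun h => ?_⟩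
            exact H.asym i hi j hj (H.sub i hi j hj hB) ((val_ov hj hi).mp h)
          · exact ⟨av i j, by simp, fun h => hB ((val_av hi hj).mp h)⟩
        next => exact valid_taut _
    next => exact valid_taut _
  | T1 i j k =>
    simp only [axM]
    split
    next hij hjk hk =>
      rw [lt_iff] at hij hjk hk
      have hj : j < 10 := by omega
      have hi : i < 10 := by omega
      refine valid_of _ _ _ ?_
      by_cases ha : s i j
      · by_cases hb : s j k
        · exact Or.inl ⟨_, List.mem_singleton_self _,
            (val_ov hi hk).mpr (H.trans i hi j hj k hk ha hb)⟩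
        · exact Or.inr ⟨ov j k, by simp, fun h => hb ((val_ov hj hk).mp h)⟩
      · exact Or.inr ⟨ov i j, by simp, fun h => ha ((val_ov hi hj).mp h)⟩
    next => exact valid_taut _
  | T2 i j k =>
    simp only [axM]
    split
    next hij hjk hk =>
      rw [lt_iff] at hij hjk hk
      have hj : j < 10 := by omega
      have hi : i < 10 := by omega
      refine valid_of _ _ _ ?_
      by_cases ha : s i j
      · exact Or.inl ⟨ov i j, by simp, (val_ov hi hj).mpr ha⟩
      · by_cases hb : s j k
        · exact Or.inl ⟨ov j k, by simp, (val_ov hj hk).mpr hb⟩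
        · refine Or.inr ⟨ov i k, by simp, fun h => ?_⟩
          have h3 : s j i := (H.total i hi j hj (by omega)).resolve_left ha
          have h4 : s k j := (H.total j hj k hk (by omega)).resolve_left hb
          exact H.asym i hi k hk ((val_ov hi hk).mp h) (H.trans k hk j hj i hi h4 h3)
    next => exact valid_taut _
  | PX e z t =>
    simp only [axM]
    split
    next hz he =>
      rw [lt_iff] at hz he
      have hx := (exy_lt e).1
      have hy := (exy_lt e).2
      split
      · refine valid_of _ _ _ ?_
        by_cases h : val B s (pv e z)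
        · exact Or.inl ⟨_, List.mem_singleton_self _, (val_av hx hz).mpr ((val_pv hz).mp h).1⟩
        · exact Or.inr ⟨_, List.mem_singleton_self _, h⟩
      · refine valid_of _ _ _ ?_
        by_cases h : val B s (pv e z)
        · exact Or.inl ⟨_, List.mem_singleton_self _, (val_av hy hz).mpr ((val_pv hz).mp h).2⟩
        · exact Or.inr ⟨_, List.mem_singleton_self _, h⟩
      · refine valid_of _ _ _ ?_
        by_cases h : val B s (qv e z)
        · exact Or.inl ⟨_, List.mem_singleton_self _, (val_av hz hx).mpr ((val_qv hz).mp h).1⟩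
        · exact Or.inr ⟨_, List.mem_singleton_self _, h⟩
      · refine valid_of _ _ _ ?_
        by_cases h : val B s (qv e z)
        · exact Or.inl ⟨_, List.mem_singleton_self _, (val_av hz hy).mpr ((val_qv hz).mp h).2⟩
        · exact Or.inr ⟨_, List.mem_singleton_self _, h⟩
    next => exact valid_taut _
  | BIG e =>
    simp only [axM]
    split
    next he =>
      rw [lt_iff] at he
      refine valid_of_p _ _ ?_
      have hirr : ∀ z < 10, ¬ B z z := fun z hz hB =>
        H.asym z hz z hz (H.sub z hz z hz hB) (H.sub z hz z hz hB)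
      obtain ⟨z, hz, h | h⟩ := H.edge e he
      · have n1 : z ≠ ex e := fun h' => hirr z hz (by have := h.1; rwa [← h'] at this)
        have n2 : z ≠ ey e := fun h' => hirr z hz (by have := h.2; rwa [← h'] at this)
        refine ⟨pv e z, (mem_bigList e z n1 n2 _ ?_).1, (val_pv hz).mpr h⟩
        interval_cases z <;> simp
      · have n1 : z ≠ ex e := fun h' => hirr z hz (by have := h.1; rwa [← h'] at this)
        have n2 : z ≠ ey e := fun h' => hirr z hz (by have := h.2; rwa [← h'] at this)
        refine ⟨qv e z, (mem_bigList e z n1 n2 _ ?_).2, (val_qv hz).mpr h⟩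
        interval_cases z <;> simp
    next => exact valid_taut _
  | NE x y z t =>
    simp only [axM]
    split
    next hxy hy hz hE =>
      rw [lt_iff] at hxy hy hz
      have hx : x < 10 := by omega
      have hn : (x, y) ∉ E := by
        intro h
        rw [inE_complete x y E h] at hE
        exact Bool.noConfusion hE
      have hn' : (y, x) ∉ E := fun h => by
        have := (E_lt y x h).1
        omega
      have h := H.non x hx y hy hxy.ne hn hn' z hz
      split
      · refine valid_of_n _ _ ?_
        by_cases ha : B x z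
        · exact ⟨av y z, by simp, fun hh => h.1 ⟨ha, (val_av hy hz).mp hh⟩⟩
        · exact ⟨av x z, by simp, fun hh => ha ((val_av hx hz).mp hh)⟩
      · refine valid_of_n _ _ ?_
        by_cases ha : B z x
        · exact ⟨av z y, by simp, fun hh => h.2 ⟨ha, (val_av hz hy).mp hh⟩⟩
        · exact ⟨av z x, by simp, fun hh => ha ((val_av hz hx).mp hh)⟩
    next => exact valid_taut _
  | U1 =>
    exact valid_of_p _ _ ⟨_, List.mem_singleton_self _, (val_ov (by norm_num) (by norm_num)).mpr h1⟩
  | U2 =>
    exact valid_of_p _ _ ⟨_, List.mem_singleton_self _, (val_ov (by norm_num) (by norm_num)).mpr h2⟩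

/-! ### a fast checker -/

/-- tree of clauses; a clause is one number, literal `v` is bit `v`, literal `¬ v` is bit `v + 512` -/
inductive CT where
  | nil : CT
  | node (c : ℕ) (l r : CT) : CT

/-- lookup -/
noncomputable def CT.get (t : CT) : ℕ → ℕ :=
  CT.rec (motive := fun _ => ℕ → ℕ) (fun _ => 0)
    (fun c _ _ gl gr i =>
      Nat.rec (motive := fun _ => ℕ) c
        (fun j _ => Bool.rec (motive := fun _ => ℕ) (gr (Nat.div j 2)) (gl (Nat.div j 2))
          (Nat.beq (Nat.mod j 2) 0)) i) t

/-- truth of a literal -/
def L (val : ℕ → Prop) (l : ℕ) : Prop := (l < 512 ∧ val l) ∨ (512 ≤ l ∧ ¬ val (l - 512))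

/-- truth of a clause -/
def LV (val : ℕ → Prop) (c : ℕ) : Prop := ∃ l, c.testBit l = true ∧ L val l

/-- check of one clause: `F` is the set of the literals known to be false; a hint is
`1024 (m + 1) + l` where `l` is the only literal of clause `m` not in `F`. -/
noncomputable def chk (T : CT) (k : ℕ) (hs : List ℕ) : ℕ → Bool :=
  List.rec (motive := fun _ => ℕ → Bool)
    (fun F => Bool.rec (motive := fun _ => Bool) true false
      (Nat.beq (Nat.mod (Nat.land (Nat.shiftRight F 512) F) (Nat.pow 2 512)) 0))
    (fun n _ ih F =>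
      Bool.rec (motive := fun _ => Bool) false
        (Nat.rec (motive := fun _ => Bool) false
          (fun m _ =>
            Bool.rec (motive := fun _ => Bool) false
              (Nat.rec (motive := fun _ => Bool) false (fun f _ => ih (Nat.succ f))
                (Nat.lor F (Nat.shiftLeft 1 (Nat.xor (Nat.mod n 1024) 512))))
              (Nat.beq (Nat.lor (T.get m) (Nat.lor F (Nat.shiftLeft 1 (Nat.mod n 1024))))
                (Nat.lor F (Nat.shiftLeft 1 (Nat.mod n 1024)))))
          (Nat.div n 1024))
        (Nat.ble (Nat.div n 1024) k))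
    hs

theorem chk_nil (T : CT) (k F : ℕ) (h : chk T k [] F = true) :
    Nat.beq (Nat.mod (Nat.land (Nat.shiftRight F 512) F) (Nat.pow 2 512)) 0 = false := by
  have h' : (Bool.rec (motive := fun _ => Bool) true false
      (Nat.beq (Nat.mod (Nat.land (Nat.shiftRight F 512) F) (Nat.pow 2 512)) 0) : Bool) = true := h
  cases hb : Nat.beq (Nat.mod (Nat.land (Nat.shiftRight F 512) F) (Nat.pow 2 512)) 0 with
  | false => rfl
  | true =>
    rw [hb] at h'
    exact absurd h' (by decide)

theorem chk_cons (T : CT) (k n F : ℕ) (hs : List ℕ) (h : chk T k (n :: hs) F = true) :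
    ∃ m, Nat.div n 1024 = m + 1 ∧ m < k ∧
      Nat.lor (T.get m) (Nat.lor F (Nat.shiftLeft 1 (Nat.mod n 1024))) =
        Nat.lor F (Nat.shiftLeft 1 (Nat.mod n 1024)) ∧
      chk T k hs (Nat.lor F (Nat.shiftLeft 1 (Nat.xor (Nat.mod n 1024) 512))) = true := by
  have h' : (Bool.rec (motive := fun _ => Bool) false
        (Nat.rec (motive := fun _ => Bool) false
          (fun m _ =>
            Bool.rec (motive := fun _ => Bool) false
              (Nat.rec (motive := fun _ => Bool) false (fun f _ => chk T k hs (Nat.succ f))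
                (Nat.lor F (Nat.shiftLeft 1 (Nat.xor (Nat.mod n 1024) 512))))
              (Nat.beq (Nat.lor (T.get m) (Nat.lor F (Nat.shiftLeft 1 (Nat.mod n 1024))))
                (Nat.lor F (Nat.shiftLeft 1 (Nat.mod n 1024)))))
          (Nat.div n 1024))
        (Nat.ble (Nat.div n 1024) k) : Bool) = true := h
  clear h
  cases h1 : Nat.ble (Nat.div n 1024) k with
  | false => rw [h1] at h'; exact absurd h' (by simp)
  | true =>
    rw [h1] at h'
    cases h2 : Nat.div n 1024 with
    | zero => rw [h2] at h'; exact absurd h' (by simp)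
    | succ m =>
      rw [h2] at h' h1
      refine ⟨m, rfl, ?_, ?_⟩
      · exact Nat.le_of_ble_eq_true h1
      · have h'' : (Bool.rec (motive := fun _ => Bool) false
              (Nat.rec (motive := fun _ => Bool) false (fun f _ => chk T k hs (Nat.succ f))
                (Nat.lor F (Nat.shiftLeft 1 (Nat.xor (Nat.mod n 1024) 512))))
              (Nat.beq (Nat.lor (T.get m) (Nat.lor F (Nat.shiftLeft 1 (Nat.mod n 1024))))
                (Nat.lor F (Nat.shiftLeft 1 (Nat.mod n 1024)))) : Bool) = true := h'
        cases h3 : Nat.beq (Nat.lor (T.get m) (Nat.lor F (Nat.shiftLeft 1 (Nat.mod n 1024))))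
                (Nat.lor F (Nat.shiftLeft 1 (Nat.mod n 1024))) with
        | false => rw [h3] at h''; exact absurd h'' (by simp)
        | true =>
          rw [h3] at h''
          refine ⟨Nat.eq_of_beq_eq_true h3, ?_⟩
          have h4 : (Nat.rec (motive := fun _ => Bool) false (fun f _ => chk T k hs (Nat.succ f))
                (Nat.lor F (Nat.shiftLeft 1 (Nat.xor (Nat.mod n 1024) 512))) : Bool) = true := h''
          cases h5 : Nat.lor F (Nat.shiftLeft 1 (Nat.xor (Nat.mod n 1024) 512)) with
          | zero => rw [h5] at h4; exact absurd h4 (by simp)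
          | succ f => rw [h5] at h4; exact h4

theorem xor512 (l : ℕ) (hl : l < 1024) :
    Nat.xor l 512 = if l < 512 then l + 512 else l - 512 := by
  have h : ∀ l < 1024, Nat.xor l 512 = if l < 512 then l + 512 else l - 512 := by decide +kernel
  exact h l hl

theorem chk_sound (val : ℕ → Prop) (T : CT) (k : ℕ) (hT : ∀ i < k, LV val (T.get i)) :
    ∀ (hs : List ℕ) (F : ℕ), chk T k hs F = true →
      (∀ l, F.testBit l = true → ¬ L val l) → False := by
  intro hs
  induction hs with
  | nil =>
    intro F h hF
    have h1 := chk_nil T k F h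
    have h2 : ((F >>> 512) &&& F) % 2 ^ 512 ≠ 0 := by
      intro h0
      have : Nat.beq (Nat.mod (Nat.land (Nat.shiftRight F 512) F) (Nat.pow 2 512)) 0 = true := by
        rw [Nat.beq_eq]
        exact h0
      rw [h1] at this
      exact Bool.noConfusion this
    obtain ⟨i, hi⟩ : ∃ i, (((F >>> 512) &&& F) % 2 ^ 512).testBit i = true := by
      by_contra hcon
      push Not at hcon
      exact h2 (Nat.zero_of_testBit_eq_false (fun i => by simpa using hcon i))
    rw [Nat.testBit_mod_two_pow, Nat.testBit_land, Nat.testBit_shiftRight, Bool.and_eq_true,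
      Bool.and_eq_true, decide_eq_true_eq] at hi
    have a1 := hF _ hi.2.1
    have a2 := hF _ hi.2.2
    by_cases hv : val i
    · exact a2 (Or.inl ⟨hi.1, hv⟩)
    · refine a1 (Or.inr ⟨by omega, ?_⟩)
      rw [Nat.add_sub_cancel_left]
      exact hv
  | cons n hs ih =>
    intro F h hF
    obtain ⟨m, h1, h2, h3, h4⟩ := chk_cons T k n F hs h
    refine ih _ h4 ?_
    have hmod : Nat.mod n 1024 < 1024 := Nat.mod_lt _ (by norm_num)
    generalize Nat.mod n 1024 = l at *
    obtain ⟨u, hu, hLu⟩ := hT m h2
    have hul : u = l := by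
      by_contra hne
      have h5 : (Nat.lor (T.get m) (Nat.lor F (Nat.shiftLeft 1 l))).testBit u = true := by
        change (T.get m ||| (F ||| (Nat.shiftLeft 1 l))).testBit u = true
        rw [Nat.testBit_lor, hu, Bool.true_or]
      rw [h3] at h5
      have h6 : (F ||| Nat.shiftLeft 1 l).testBit u = true := h5
      rw [Nat.testBit_lor, Bool.or_eq_true, testBit_shl1] at h6
      rcases h6 with h6 | h6
      · exact hF u h6 hLu
      · exact hne (of_decide_eq_true h6).symm
    rw [hul] at hLu
    intro w hw
    have h7 : (F ||| Nat.shiftLeft 1 (Nat.xor l 512)).testBit w = true := hw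
    rw [Nat.testBit_lor, Bool.or_eq_true, testBit_shl1] at h7
    rcases h7 with h7 | h7
    · exact hF w h7
    · have h8 : Nat.xor l 512 = w := of_decide_eq_true h7
      rw [xor512 l hmod] at h8
      rcases hLu with ⟨h9, h10⟩ | ⟨h9, h10⟩
      · rw [if_pos h9] at h8
        rintro (⟨h11, _⟩ | ⟨h11, h12⟩)
        · omega
        · rw [← h8, Nat.add_sub_cancel] at h12
          exact h12 h10
      · rw [if_neg (by omega)] at h8
        rintro (⟨h11, h12⟩ | ⟨h11, _⟩)
        · rw [← h8] at h12
          exact h10 h12
        · omega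

/-- the clauses number `k, k + 1, ...` of the tree are consequences of the earlier ones -/
noncomputable def runT (T : CT) : ℕ → List (List ℕ) → Bool
  | _, [] => true
  | k, hs :: rest =>
    match chk T k hs (T.get k) with
    | false => false
    | true => runT T (k + 1) rest

theorem runT_sound (val : ℕ → Prop) (T : CT) :
    ∀ (st : List (List ℕ)) (k : ℕ), (∀ i < k, LV val (T.get i)) → runT T k st = true →
      ∀ i < k + st.length, LV val (T.get i) := by
  intro st
  induction st with
  | nil => intro k h _ i hi; exact h i hi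
  | cons hs rest ih =>
    intro k hk h i hi
    rw [runT] at h
    cases h2 : chk T k hs (T.get k) with
    | false => simp [h2] at h
    | true =>
      simp only [h2] at h
      have hvalid : LV val (T.get k) := by
        by_contra hcon
        exact chk_sound val T k hk hs _ h2 (fun l hl hL => hcon ⟨l, hl, hL⟩)
      refine ih (k + 1) ?_ h i ?_
      · intro j hj
        rcases Nat.lt_succ_iff_lt_or_eq.mp hj with hj | hj
        · exact hk j hj
        · rw [hj]
          exact hvalid
      · rw [List.length_cons] at hi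
        omega

/-- the clauses number `k, k + 1, ...` of the tree are the listed axioms -/
noncomputable def axOK (T : CT) : ℕ → List Ax → Bool
  | _, [] => true
  | k, a :: as =>
    match Nat.beq (T.get k) (Nat.lor (axM a).1 (Nat.shiftLeft (axM a).2 512)) with
    | false => false
    | true =>
      match Nat.beq (Nat.div (axM a).1 (Nat.pow 2 512)) 0 with
      | false => false
      | true => axOK T (k + 1) as

theorem LV_of_Valid {val : ℕ → Prop} {c : ℕ × ℕ} (h : Valid val c) (h1 : c.1 < 2 ^ 512) :
    LV val (Nat.lor c.1 (Nat.shiftLeft c.2 512)) := by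
  obtain ⟨v, ⟨h2, h3⟩ | ⟨h2, h3⟩⟩ := h
  · refine ⟨v, ?_, Or.inl ⟨?_, h3⟩⟩
    · change (c.1 ||| (c.2 <<< 512)).testBit v = true
      rw [Nat.testBit_lor, h2, Bool.true_or]
    · by_contra hv
      have h4 : c.1.testBit v = false :=
        Nat.testBit_lt_two_pow (lt_of_lt_of_le h1 (Nat.pow_le_pow_right (by norm_num) (by omega)))
      rw [h4] at h2
      exact Bool.noConfusion h2
  · refine ⟨v + 512, ?_, Or.inr ⟨by omega, ?_⟩⟩
    · change (c.1 ||| (c.2 <<< 512)).testBit (v + 512) = true
      rw [Nat.testBit_lor, Nat.testBit_shiftLeft, Nat.add_sub_cancel, h2]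
      simp
    · rw [Nat.add_sub_cancel]
      exact h3

theorem axOK_sound (H : Hyp B s) (h1 : s 6 7) (h2 : s 8 9) (T : CT) :
    ∀ (l : List Ax) (k : ℕ), (∀ i < k, LV (val B s) (T.get i)) → axOK T k l = true →
      ∀ i < k + l.length, LV (val B s) (T.get i) := by
  intro l
  induction l with
  | nil => intro k h _ i hi; exact h i hi
  | cons a as ih =>
    intro k hk h i hi
    rw [axOK] at h
    cases e1 : Nat.beq (T.get k) (Nat.lor (axM a).1 (Nat.shiftLeft (axM a).2 512)) with
    | false => rw [e1] at h; exact absurd h (by simp)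
    | true =>
      rw [e1] at h
      cases e2 : Nat.beq (Nat.div (axM a).1 (Nat.pow 2 512)) 0 with
      | false => rw [e2] at h; exact absurd h (by simp)
      | true =>
        rw [e2] at h
        replace h : axOK T (k + 1) as = true := h
        have hlt : (axM a).1 < 2 ^ 512 := by
          have e3 : (axM a).1 / 2 ^ 512 = 0 := Nat.eq_of_beq_eq_true e2
          by_contra hcon
          have := Nat.div_pos (not_lt.mp hcon) (by positivity)
          omega
        have hvalid : LV (val B s) (T.get k) := by
          rw [Nat.eq_of_beq_eq_true e1]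
          exact LV_of_Valid (axM_valid H h1 h2 a) hlt
        refine ih (k + 1) ?_ h i ?_
        · intro j hj
          rcases Nat.lt_succ_iff_lt_or_eq.mp hj with hj | hj
          · exact hk j hj
          · rw [hj]
            exact hvalid
        · rw [List.length_cons] at hi
          omega

theorem not_LV_zero (val : ℕ → Prop) : ¬ LV val 0 := by
  rintro ⟨v, h, _⟩
  simp at h

end Pool.Agent.H451R2.Niche
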