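import Mathlib
import Pool.Agent.H451R2.Niche.Chk0
import Pool.Agent.H451R2.Niche.Chk1
import Pool.Agent.H451R2.Niche.Chk2
import Pool.Agent.H451R2.Niche.Chk3
import Pool.Agent.H451R2.Niche.Chk4
import Pool.Agent.H451R2.Niche.Chk5
import Pool.Agent.H451R2.Niche.Chk6
import Pool.Agent.H451R2.Niche.Chk7
import Pool.Agent.H451R2.Niche.Chk8

/-! # The certificate is contradictory -/

set_option autoImplicit false
set_option maxRecDepth 100000

namespace Pool.Agent.H451R2.Niche

open Pool.Agent.H171R2.Rup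

theorem axlen : axs.length = 1085 := by decide +kernel

theorem axok : axOK T 0 axs = true := by decide +kernel

theorem T_last : T.get 1826 = 0 := by decide +kernel

theorem v0 {B s : ℕ → ℕ → Prop} (H : Hyp B s) (h1 : s 6 7) (h2 : s 8 9) :
    ∀ i < 1085, LV (val B s) (T.get i) := by
  have h := axOK_sound H h1 h2 T axs 0 (fun i hi => absurd hi (Nat.not_lt_zero i)) axok
  rw [axlen] at h
  exact h

theorem v1 {B s : ℕ → ℕ → Prop} (H : Hyp B s) (h1 : s 6 7) (h2 : s 8 9) :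
    ∀ i < 1158, LV (val B s) (T.get i) := by
  have h := runT_sound (val B s) T st0 1085 (v0 H h1 h2) ok0
  rw [len0] at h
  exact h

theorem v2 {B s : ℕ → ℕ → Prop} (H : Hyp B s) (h1 : s 6 7) (h2 : s 8 9) :
    ∀ i < 1225, LV (val B s) (T.get i) := by
  have h := runT_sound (val B s) T st1 1158 (v1 H h1 h2) ok1
  rw [len1] at h
  exact h

theorem v3 {B s : ℕ → ℕ → Prop} (H : Hyp B s) (h1 : s 6 7) (h2 : s 8 9) :
    ∀ i < 1284, LV (val B s) (T.get i) := by
  have h := runT_sound (val B s) T st2 1225 (v2 H h1 h2) ok2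
  rw [len2] at h
  exact h

theorem v4 {B s : ℕ → ℕ → Prop} (H : Hyp B s) (h1 : s 6 7) (h2 : s 8 9) :
    ∀ i < 1364, LV (val B s) (T.get i) := by
  have h := runT_sound (val B s) T st3 1284 (v3 H h1 h2) ok3
  rw [len3] at h
  exact h

theorem v5 {B s : ℕ → ℕ → Prop} (H : Hyp B s) (h1 : s 6 7) (h2 : s 8 9) :
    ∀ i < 1447, LV (val B s) (T.get i) := by
  have h := runT_sound (val B s) T st4 1364 (v4 H h1 h2) ok4
  rw [len4] at h
  exact h

theorem v6 {B s : ℕ → ℕ → Prop} (H : Hyp B s) (h1 : s 6 7) (h2 : s 8 9) :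
    ∀ i < 1519, LV (val B s) (T.get i) := by
  have h := runT_sound (val B s) T st5 1447 (v5 H h1 h2) ok5
  rw [len5] at h
  exact h

theorem v7 {B s : ℕ → ℕ → Prop} (H : Hyp B s) (h1 : s 6 7) (h2 : s 8 9) :
    ∀ i < 1590, LV (val B s) (T.get i) := by
  have h := runT_sound (val B s) T st6 1519 (v6 H h1 h2) ok6
  rw [len6] at h
  exact h

theorem v8 {B s : ℕ → ℕ → Prop} (H : Hyp B s) (h1 : s 6 7) (h2 : s 8 9) :
    ∀ i < 1660, LV (val B s) (T.get i) := by
  have h := runT_sound (val B s) T st7 1590 (v7 H h1 h2) ok7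
  rw [len7] at h
  exact h

theorem v9 {B s : ℕ → ℕ → Prop} (H : Hyp B s) (h1 : s 6 7) (h2 : s 8 9) :
    ∀ i < 1827, LV (val B s) (T.get i) := by
  have h := runT_sound (val B s) T st8 1660 (v8 H h1 h2) ok8
  rw [len8] at h
  exact h

theorem false_of_cert {B s : ℕ → ℕ → Prop} (H : Hyp B s) (h1 : s 6 7) (h2 : s 8 9) : False := by
  have h := v9 H h1 h2 1826 (by norm_num)
  rw [T_last] at h
  exact not_LV_zero _ h

end Pool.Agent.H451R2.Niche
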