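import Mathlib
import Pool.Agent.H451R2.Niche.Core
import Pool.Agent.H451R2.Niche.Data

/-! # No acyclic digraph on ten points has the niche graph `G ∪ I_2` -/

set_option autoImplicit false

namespace Pool.Agent.H451R2.Niche

variable {B s : ℕ → ℕ → Prop}

/-- the exchange of `8` and `9` -/
def sw (i : ℕ) : ℕ := if i = 8 then 9 else if i = 9 then 8 else i

lemma sw_sw (i : ℕ) : sw (sw i) = i := by
  unfold sw
  split_ifs <;> omega

lemma sw_lt {i : ℕ} (h : i < 10) : sw i < 10 := by
  unfold sw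
  split_ifs <;> omega

lemma sw_of_lt {i : ℕ} (h : i < 8) : sw i = i := by
  unfold sw
  split_ifs <;> omega

lemma sw_inj {i j : ℕ} (h : sw i = sw j) : i = j := by
  rw [← sw_sw i, h, sw_sw]

lemma exy_lt8 (e : ℕ) (he : e < 13) : ex e < 8 ∧ ey e < 8 := by
  interval_cases e <;> decide

lemma sw_not_mem {x y : ℕ} (h : (x, y) ∉ E) : (sw x, sw y) ∉ E := by
  intro hm
  have h1 := E_lt _ _ hm
  have hy : sw y < 8 := h1.2
  have hx : sw x < 8 := by omega
  have ex1 : sw (sw x) = sw x := sw_of_lt hx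
  have ey1 : sw (sw y) = sw y := sw_of_lt hy
  rw [sw_sw] at ex1 ey1
  rw [← ex1, ← ey1] at hm
  exact h hm

theorem hyp_sw (H : Hyp B s) : Hyp (fun i j => B (sw i) (sw j)) (fun i j => s (sw i) (sw j)) where
  sub := fun i hi j hj h => H.sub _ (sw_lt hi) _ (sw_lt hj) h
  asym := fun i hi j hj h => H.asym _ (sw_lt hi) _ (sw_lt hj) h
  total := fun i hi j hj h => H.total _ (sw_lt hi) _ (sw_lt hj) (fun h' => h (sw_inj h'))
  trans := fun i hi j hj k hk h1 h2 => H.trans _ (sw_lt hi) _ (sw_lt hj) _ (sw_lt hk) h1 h2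
  edge := by
    intro e he
    obtain ⟨z, hz, h⟩ := H.edge e he
    refine ⟨sw z, sw_lt hz, ?_⟩
    have h8 := exy_lt8 e he
    rw [sw_of_lt h8.1, sw_of_lt h8.2, sw_sw]
    exact h
  non := fun x hx y hy hxy h1 h2 z hz =>
    H.non _ (sw_lt hx) _ (sw_lt hy) (fun h' => hxy (sw_inj h')) (sw_not_mem h1) (sw_not_mem h2)
      _ (sw_lt hz)

theorem hyp_rev (H : Hyp B s) : Hyp (fun i j => B j i) (fun i j => s j i) where
  sub := fun i hi j hj h => H.sub _ hj _ hi h
  asym := fun i hi j hj h => H.asym _ hj _ hi h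
  total := fun i hi j hj h => (H.total _ hi _ hj h).symm
  trans := fun i hi j hj k hk h1 h2 => H.trans _ hk _ hj _ hi h2 h1
  edge := by
    intro e he
    obtain ⟨z, hz, h⟩ := H.edge e he
    exact ⟨z, hz, h.symm⟩
  non := fun x hx y hy hxy h1 h2 z hz => (H.non _ hx _ hy hxy h1 h2 z hz).symm

theorem no_hyp1 (H : Hyp B s) (h1 : s 6 7) : False := by
  by_cases h2 : s 8 9
  · exact false_of_cert H h1 h2
  · have h3 : s 9 8 := (H.total 8 (by norm_num) 9 (by norm_num) (by norm_num)).resolve_left h2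
    exact false_of_cert (hyp_sw H) h1 h3

theorem no_hyp (H : Hyp B s) : False := by
  by_cases h1 : s 6 7
  · exact no_hyp1 H h1
  · have h3 : s 7 6 := (H.total 6 (by norm_num) 7 (by norm_num) (by norm_num)).resolve_left h1
    exact no_hyp1 (hyp_rev H) h3

/-- An acyclic relation on `ℕ` restricted to `{0, ..., 9}`. -/
theorem no_rel (B : ℕ → ℕ → Prop) (hac : ∀ i, ¬ Relation.TransGen B i i)
    (hedge : ∀ e < 13, ∃ z < 10, (B (ex e) z ∧ B (ey e) z) ∨ (B z (ex e) ∧ B z (ey e)))
    (hnon : ∀ x < 10, ∀ y < 10, x ≠ y → (x, y) ∉ E → (y, x) ∉ E → ∀ z < 10,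
      ¬ (B x z ∧ B y z) ∧ ¬ (B z x ∧ B z y)) : False := by
  have hpo : IsPartialOrder ℕ (Relation.ReflTransGen B) :=
    { refl := fun a => Relation.ReflTransGen.refl
      trans := fun a b c h1 h2 => h1.trans h2
      antisymm := by
        intro a b h1 h2
        rcases Relation.reflTransGen_iff_eq_or_transGen.mp h1 with h | h
        · exact h.symm
        · exact absurd (Relation.TransGen.trans_left h h2) (hac a) }
  obtain ⟨s0, hlin, hle⟩ := @extend_partialOrder ℕ (Relation.ReflTransGen B) hpo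
  have hs : Hyp B (fun i j => s0 i j ∧ i ≠ j) :=
    { sub := by
        intro i _ j _ h
        refine ⟨hle _ _ (Relation.ReflTransGen.single h), ?_⟩
        rintro rfl
        exact hac i (Relation.TransGen.single h)
      asym := by
        intro i _ j _ h1 h2
        exact h1.2 (hlin.antisymm _ _ h1.1 h2.1)
      total := by
        intro i _ j _ h
        rcases hlin.total i j with h1 | h1
        · exact Or.inl ⟨h1, h⟩
        · exact Or.inr ⟨h1, h.symm⟩
      trans := by
        intro i _ j _ k _ h1 h2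
        refine ⟨hlin.trans _ _ _ h1.1 h2.1, ?_⟩
        rintro rfl
        exact h1.2 (hlin.antisymm _ _ h1.1 h2.1)
      edge := hedge
      non := hnon }
  exact no_hyp hs

end Pool.Agent.H451R2.Niche
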